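import Pool.Agent.Helper84K9.SH.Three
import Pool.Agent.Helper84K9.SH.Cor
import Pool.Agent.Helper84K9.SH.Noh3
import Pool.Agent.Helper84K9.SH.Exc
import Pool.Agent.Helper84K9.SH.Gp3
import Pool.Agent.Helper84K9.SH.Par
import Pool.Agent.Helper84K9.SH.Real3
import Pool.Agent.Helper84K9.SH.Fin
import Pool.Agent.Helper84K9.SG.Int2
import Pool.Agent.Helper84K9.SG.Seq

/-!
# Sets of positive integers without three term geometric progressions and with small gaps

For every integer `c ≥ 2` there is a set `A` of positive integers without geometric progressions of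
three terms (with any real ratio) such that every interval `[x, x + C exp ((log x) ^ (1 / c))]`, `x ≥ 2`,
contains an element of `A`.

Idea of the proof. For random `t p` let `f n = ∑ p, (v_p(n) ^ 2 + t p * v_p(n))`, where `v_p(n)` is the
exponent of `p` in `n`. Along a geometric progression the exponents form arithmetic progressions with
differences `d p`, so the second difference of `f` along three terms is `2 ∑ p, d p ^ 2`: it is not zero, and
at most `2 (log_2 x) ^ 2` for terms up to `x`. So three terms cannot all have `f n` divisible by a prime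
`M > 2 (log_2 x) ^ 2`. Most elements `n` of a short interval have a private large prime factor `p`, and
`t p` makes the events `M ∣ f n` (of probability `1 / M`) independent. This is done in overlapping ranges of
`log n`, and the elements satisfy the conditions of two neighbouring ranges.

If the first of the three terms `w v ^ 2, w u v, w u ^ 2` is in a much lower range than the last, the last
one has a very large square divisor `u ^ 2`; such numbers are left out, and there are at most
`exp ((log x) ^ (1 / c))` of them in a short interval.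
-/

set_option autoImplicit false

namespace Pool.Agent.Results.MP_b928c0_nt.ThreeTerms

/-- The set `A` contains a geometric progression with `k` terms: nonzero elements
`b 0, ..., b (k - 1)` of `A` and a real `r ≠ 0, 1, -1` with `b (j + 1) = r * b j`. -/
def ContainsGP (A : Set ℕ) (k : ℕ) : Prop :=
  ∃ (b : Fin k → ℕ) (r : ℝ), (∀ j, b j ∈ A) ∧ (∀ j, b j ≠ 0) ∧ r ≠ 0 ∧ r ≠ 1 ∧ r ≠ -1 ∧
    ∀ i j : Fin k, j.val = i.val + 1 → (b j : ℝ) = r * (b i : ℝ)

theorem result (c : ℕ) (hc : 2 ≤ c) :
    ∃ A : Set ℕ, (∀ a ∈ A, 0 < a) ∧ ¬ ContainsGP A 3 ∧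
      ∃ C : ℝ, ∀ x : ℝ, 2 ≤ x → ∃ a ∈ A, x ≤ (a : ℝ) ∧
        (a : ℝ) ≤ x + C * Real.exp ((Real.log x) ^ (1 / (c : ℝ))) := by
  obtain ⟨A, N0, hpos, hgp0, hnat⟩ := Pool.Agent.Helper84K9.SH.three_nat
    Pool.Agent.Helper84K9.SH.cor (Pool.Agent.Helper84K9.SH.noh3 Pool.Agent.Helper84K9.SG.int2)
    Pool.Agent.Helper84K9.SH.exc Pool.Agent.Helper84K9.SG.seq Pool.Agent.Helper84K9.SH.gp3
    Pool.Agent.Helper84K9.SH.par3 Pool.Agent.Helper84K9.SH.real3 c hc
  have hgap := Pool.Agent.Helper84K9.SH.fin3 c A 32 N0 hc (by norm_num) hnat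
  have hgp : ∀ b : ℕ → ℕ, (∀ j < 3, b j ∈ A) →
      (∀ j, j + 2 < 3 → b j * b (j + 2) = b (j + 1) ^ 2) → ¬ b 0 < b 1 :=
    fun b hb h => hgp0 b hb (h 0 (by omega))
  refine ⟨A, hpos, ?_, hgap⟩
  obtain ⟨k, hk⟩ : ∃ k, k = 3 := ⟨_, rfl⟩
  rw [← hk] at hgp ⊢
  have hkpos : 0 < k := by omega
  rintro ⟨b, r, hb, hb0, hr0, hr1, -, hr⟩
  -- the extension of `b` to all the natural numbers, and the reversed sequence
  let e1 : ℕ → ℕ := fun j => if h : j < k then b ⟨j, h⟩ else 1
  let e1' : ℕ → ℕ := fun j => if h : j < k then b ⟨k - 1 - j, by omega⟩ else 1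
  have he1 : ∀ j (h : j < k), e1 j = b ⟨j, h⟩ := fun j h => by simp only [e1]; rw [dif_pos h]
  have he1' : ∀ j (h : j < k), e1' j = b ⟨k - 1 - j, by omega⟩ := fun j h => by
    simp only [e1']; rw [dif_pos h]
  have hstep : ∀ i (h : i + 1 < k), (b ⟨i + 1, h⟩ : ℝ) = r * (b ⟨i, by omega⟩ : ℝ) :=
    fun i h => hr ⟨i, by omega⟩ ⟨i + 1, h⟩ rfl
  have hpos' : ∀ j : Fin k, (0 : ℝ) < b j := fun j => by
    exact_mod_cast Nat.pos_of_ne_zero (hb0 j)
  have hrpos : 0 < r := by
    have h1 := hstep 0 (by omega)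
    have h2 := hpos' ⟨0 + 1, by omega⟩
    have h3 := hpos' ⟨0, by omega⟩
    rw [h1] at h2
    exact (pos_iff_pos_of_mul_pos h2).2 h3
  have hsq : ∀ i (h : i + 2 < k), b ⟨i, by omega⟩ * b ⟨i + 2, h⟩ = b ⟨i + 1, by omega⟩ ^ 2 := by
    intro i h
    have h1 := hstep i (by omega)
    have h2 := hstep (i + 1) h
    have h3 : ((b ⟨i, by omega⟩ * b ⟨i + 2, h⟩ : ℕ) : ℝ) = ((b ⟨i + 1, by omega⟩ ^ 2 : ℕ) : ℝ) := by
      push_cast
      have h4 : (b ⟨i + 2, h⟩ : ℝ) = r * (b ⟨i + 1, by omega⟩ : ℝ) := h2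
      rw [h4, h1]
      ring
    exact_mod_cast h3
  rcases lt_or_gt_of_ne hr1 with hlt | hgt
  · -- a decreasing progression
    apply hgp e1'
    · intro j hj
      rw [he1' j hj]
      exact hb _
    · intro j hj
      rw [he1' j (by omega), he1' (j + 1) (by omega), he1' (j + 2) hj]
      have h1 := hsq (k - 1 - (j + 2)) (by omega)
      have e1 : k - 1 - (j + 2) + 2 = k - 1 - j := by omega
      have e2 : k - 1 - (j + 2) + 1 = k - 1 - (j + 1) := by omega
      simp only [e1, e2] at h1
      rw [← h1]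
      ring
    · rw [he1' 0 (by omega), he1' 1 (by omega)]
      have h1 := hstep (k - 1 - 1) (by omega)
      have e1 : k - 1 - 1 + 1 = k - 1 - 0 := by omega
      simp only [e1] at h1
      have h2 := hpos' ⟨k - 1 - 1, by omega⟩
      have h3 : (b ⟨k - 1 - 0, by omega⟩ : ℝ) < b ⟨k - 1 - 1, by omega⟩ := by
        rw [h1]
        nlinarith
      exact_mod_cast h3
  · -- an increasing progression
    apply hgp e1
    · intro j hj
      rw [he1 j hj]
      exact hb _
    · intro j hj
      rw [he1 j (by omega), he1 (j + 1) (by omega), he1 (j + 2) hj]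
      exact hsq j hj
    · rw [he1 0 (by omega), he1 1 (by omega)]
      have h1 := hstep 0 (by omega)
      have h2 := hpos' ⟨0, by omega⟩
      have h3 : (b ⟨0, by omega⟩ : ℝ) < b ⟨0 + 1, by omega⟩ := by
        rw [h1]
        nlinarith
      exact_mod_cast h3

end Pool.Agent.Results.MP_b928c0_nt.ThreeTerms
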